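import Mathlib

/-!
Effective Shafarevich conjecture for curves of genus at least two: a computable bound for the height of
all but polynomially many curves, in a sparse set of genera only, gives a computable bound for all curves.
-/

set_option autoImplicit false

namespace Pool.Agent.Results.MP_f89135_nt.PolynomiallyManyExceptions

/-- The curves of genus at least two over number fields and their cyclic étale covers, with the classical
facts used here. -/
structure CurveTheory where
  /-- The pairs `(K, T)` of a number field and a finite set of finite places of it, coded. -/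
  Base : Type
  /-- The coding of the pairs `(K, T)`. -/
  [coding : Primcodable Base]
  /-- The curves over the algebraic closure of `ℚ`, up to isomorphism. -/
  Curve : Type
  /-- The genus. -/
  genus : Curve → ℕ
  /-- The stable Faltings height of the Jacobian. -/
  height : Curve → ℝ
  /-- `Good (K, T) X`: the curve `X` has a model over `K` with good reduction outside `T`. -/
  Good : Base → Curve → Prop
  /-- The connected cyclic étale covers `Y → X`, up to isomorphism over `X`. -/
  Cover : Type
  /-- The curve `Y` of a cover `Y → X`. -/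
  source : Cover → Curve
  /-- The connected cyclic étale covers of degree `n` of `X`. -/
  covers : Curve → ℕ → Finset Cover
  /-- Riemann-Hurwitz. -/
  genus_source : ∀ X n, 2 ≤ genus X → 2 ≤ n → ∀ f ∈ covers X n,
    genus (source f) = n * (genus X - 1) + 1
  /-- The number of the subgroups of `ℤ^(2g)` with cyclic quotient of order `n` is at least
  `n^(2g-1)/2`. -/
  many : ∀ X n, 2 ≤ genus X → 2 ≤ n → n ^ (2 * genus X - 1) ≤ 2 * (covers X n).card
  /-- Hurwitz: a cover `Y → X` is given by a cyclic subgroup `H` of `Aut Y` and an isomorphism of `Y/H`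
  with `X`, and `|Aut Y| ≤ 84 (genus Y - 1)`, `|Aut X| ≤ 84 (genus X - 1)`. -/
  hurwitz : ∀ X n Y, 2 ≤ genus X → 2 ≤ n →
    Set.ncard {f | f ∈ covers X n ∧ source f = Y} ≤ (84 * (genus Y - 1)) * (84 * (genus X - 1))
  /-- A bound for the possible loss of height. -/
  loss : ℕ × ℕ → ℕ
  loss_computable : Computable loss
  /-- The Jacobian of `X` is a factor of the Jacobian of `Y` up to an isogeny of bounded degree, and the
  height of the other factor is bounded from below. -/
  height_source : ∀ X n, 2 ≤ genus X → 2 ≤ n → ∀ f ∈ covers X n,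
    height X ≤ height (source f) + loss (genus X, n)
  /-- Finitely many extensions `(K', T')` of `(K, T)`. -/
  extensions : Base × ℕ × ℕ → List Base
  extensions_computable : Computable extensions
  /-- Chevalley-Weil and Hermite-Minkowski: for a curve `X` over `K` with good reduction outside `T` all
  cyclic étale covers of degree `n` are defined over one `K'` and have good reduction outside `T'`, with
  `(K', T')` in a finite list that depends only on `(K, T)`, the genus of `X` and `n`. -/
  good_source : ∀ B X n, 2 ≤ genus X → 2 ≤ n → Good B X →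
    ∃ B' ∈ extensions (B, genus X, n), ∀ f ∈ covers X n, Good B' (source f)

attribute [instance] CurveTheory.coding

/-- The question for genus at least two: there is a computable function `c` such that every curve `X` of
genus `g ≥ 2` over `K` with good reduction outside `T` has height at most `c(K, T, g)`. -/
def EffectiveShafarevich (C : CurveTheory) : Prop :=
  ∃ c : C.Base × ℕ → ℕ, Computable c ∧
    ∀ (B : C.Base) (X : C.Curve), 2 ≤ C.genus X → C.Good B X → C.height X ≤ c (B, C.genus X)

/-- There are a computable function `c` and a polynomial bound `a g^k` such that for all `(K, T)` and all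
`D ≥ 1` at most `a g^k` of the curves of genus `g = γ D` over `K` with good reduction outside `T`, counted
up to isomorphism over the algebraic closure, have height larger than `c(K, T, D)`. -/
def FewExceptions (C : CurveTheory) (γ : ℕ → ℕ) : Prop :=
  ∃ c : C.Base × ℕ → ℕ, Computable c ∧ ∃ a k : ℕ, ∀ (B : C.Base) (D : ℕ), 1 ≤ D →
    ∀ S : Finset C.Curve,
      (∀ Y ∈ S, C.genus Y = γ D ∧ C.Good B Y ∧ (c (B, D) : ℝ) < C.height Y) →
        S.card ≤ a * γ D ^ k

/-- A sum over a computable list is computable. -/
theorem computable_sum {α β : Type} [Primcodable α] [Primcodable β] {L : α → List β}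
    (hL : Computable L) {f : α × β → ℕ} (hf : Computable f) :
    Computable (fun x => ((L x).map (fun b => f (x, b))).sum) := by
  have h1 : Computable (fun x : α => (Nat.rec 0
      (fun (i : ℕ) (acc : ℕ) => acc + (Option.casesOn ((L x)[i]?) 0 (fun b => f (x, b)) : ℕ))
      (L x).length : ℕ)) := by
    refine Computable.nat_rec (f := fun x => (L x).length) (g := fun _ => 0)
      (h := fun x (p : ℕ × ℕ) => p.2 + (Option.casesOn ((L x)[p.1]?) 0 (fun b => f (x, b)) : ℕ))
      ?_ ?_ ?_
    · exact Computable.list_length.comp hL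
    · exact Computable.const 0
    · refine Computable₂.comp Primrec.nat_add.to_comp
        (Computable.snd.comp Computable.snd) ?_
      refine Computable.option_casesOn (o := fun q : α × ℕ × ℕ => (L q.1)[q.2.1]?)
        (f := fun _ => 0) (g := fun (q : α × ℕ × ℕ) b => f (q.1, b)) ?_ ?_ ?_
      · exact Computable₂.comp Computable.list_getElem? (hL.comp Computable.fst)
          (Computable.fst.comp Computable.snd)
      · exact Computable.const 0
      · exact hf.comp (Computable.pair (Computable.fst.comp Computable.fst) Computable.snd)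
  refine h1.of_eq ?_
  intro x
  have h2 : ∀ (l : List β) (k : ℕ), k ≤ l.length →
      (Nat.rec 0 (fun (i : ℕ) (acc : ℕ) => acc +
        (Option.casesOn (l[i]?) 0 (fun b => f (x, b)) : ℕ)) k : ℕ)
        = ((l.take k).map (fun b => f (x, b))).sum := by
    intro l k
    induction k with
    | zero => intro _; simp
    | succ k ih =>
      intro hk
      have hk' : k < l.length := hk
      rw [List.take_add_one, List.map_append, List.sum_append, ← ih (le_of_lt hk')]
      simp [List.getElem?_eq_getElem hk']
  rw [h2 (L x) (L x).length le_rfl, List.take_length]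

theorem primrec_pow (k : ℕ) : Primrec (fun n : ℕ => n ^ k) := by
  induction k with
  | zero => simpa using Primrec.const 1
  | succ k ih =>
    have : (fun n : ℕ => n ^ (k + 1)) = fun n => n ^ k * n := by
      funext n; exact pow_succ n k
    rw [this]
    exact Primrec.nat_mul.comp ih Primrec.id

/-- The numerical heart: exceptions amplify. -/
theorem numeric (a k G n s : ℕ) (hG : 1 ≤ G) (hGk : k + 1 ≤ 2 * G)
    (hn : 2 * 84 ^ 2 * (a + 1) * G ^ 2 * (2 * G) ^ k + 2 ≤ n)
    (h1 : n ^ (2 * G + 1) ≤ 2 * (s * ((84 * (n * G)) * (84 * G))))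
    (h2 : s ≤ a * (n * G + 1) ^ k) : False := by
  have hn0 : 0 < n := by omega
  have h3 : n ^ (2 * G) ≤ 2 * 84 ^ 2 * G ^ 2 * s := by
    have : n * n ^ (2 * G) ≤ n * (2 * 84 ^ 2 * G ^ 2 * s) := by
      calc n * n ^ (2 * G) = n ^ (2 * G + 1) := by ring
        _ ≤ _ := h1
        _ = _ := by ring
    exact Nat.le_of_mul_le_mul_left this hn0
  have h4 : n * G + 1 ≤ n * (2 * G) := by
    have : 1 ≤ n * G := Nat.mul_pos hn0 hG
    calc n * G + 1 ≤ n * G + n * G := by omega
      _ = _ := by ring
  have h5 : s ≤ a * (n ^ k * (2 * G) ^ k) := by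
    refine h2.trans (Nat.mul_le_mul_left a ?_)
    rw [← mul_pow]
    exact Nat.pow_le_pow_left h4 k
  have h6 : n ^ (k + 1) ≤ n ^ (2 * G) := Nat.pow_le_pow_right hn0 hGk
  have h7 : n ^ k * n ≤ n ^ k * (2 * 84 ^ 2 * a * G ^ 2 * (2 * G) ^ k) := by
    calc n ^ k * n = n ^ (k + 1) := by ring
      _ ≤ n ^ (2 * G) := h6
      _ ≤ 2 * 84 ^ 2 * G ^ 2 * s := h3
      _ ≤ 2 * 84 ^ 2 * G ^ 2 * (a * (n ^ k * (2 * G) ^ k)) := Nat.mul_le_mul_left _ h5
      _ = _ := by ring
  have h8 : n ≤ 2 * 84 ^ 2 * a * G ^ 2 * (2 * G) ^ k :=
    Nat.le_of_mul_le_mul_left h7 (Nat.pow_pos hn0)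
  have h9 : 2 * 84 ^ 2 * a * G ^ 2 * (2 * G) ^ k ≤ 2 * 84 ^ 2 * (a + 1) * G ^ 2 * (2 * G) ^ k := by
    gcongr
    omega
  omega

/-- One amplification step for the curves `X₁` of genus `G + 1`. -/
theorem step (C : CurveTheory) (a k G n : ℕ) (X : C.Curve) (hX : C.genus X = G + 1) (hG : 1 ≤ G)
    (hGk : k + 1 ≤ 2 * G) (hn : 2 * 84 ^ 2 * (a + 1) * G ^ 2 * (2 * G) ^ k + 2 ≤ n)
    (B : C.Base) (hB : ∀ f ∈ C.covers X n, C.Good B (C.source f)) (b : ℕ)
    (hb : ∀ S : Finset C.Curve, (∀ Y ∈ S, C.genus Y = n * G + 1 ∧ C.Good B Y ∧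
      (b : ℝ) < C.height Y) → S.card ≤ a * (n * G + 1) ^ k) :
    C.height X ≤ b + C.loss (G + 1, n) := by
  classical
  by_contra hcon
  push Not at hcon
  have hX2 : 2 ≤ C.genus X := by omega
  have hn2 : 2 ≤ n := by omega
  have hs := hb ((C.covers X n).image C.source) (by
    intro Y hY
    obtain ⟨f, hf, rfl⟩ := Finset.mem_image.1 hY
    refine ⟨?_, hB f hf, ?_⟩
    · rw [C.genus_source X n hX2 hn2 f hf, hX]; simp
    · have := C.height_source X n hX2 hn2 f hf
      rw [hX] at this
      linarith)
  have hc0 : (C.covers X n).card ≤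
      ((84 * (n * G)) * (84 * G)) * ((C.covers X n).image C.source).card := by
    refine Finset.card_le_mul_card_image (f := C.source) (C.covers X n) _ ?_
    intro Y hY
    obtain ⟨f, hf, rfl⟩ := Finset.mem_image.1 hY
    have h1 := C.hurwitz X n (C.source f) hX2 hn2
    rw [C.genus_source X n hX2 hn2 f hf, hX] at h1
    simp only [Nat.add_sub_cancel] at h1
    have h2 : Finset.card ((C.covers X n).filter (fun f' => C.source f' = C.source f)) =
        Set.ncard {f' | f' ∈ C.covers X n ∧ C.source f' = C.source f} := by
      rw [← Set.ncard_coe_finset]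
      congr 1
      ext f'
      simp
    rw [h2]
    exact h1
  have hc : (C.covers X n).card ≤
      ((C.covers X n).image C.source).card * ((84 * (n * G)) * (84 * G)) := by
    rw [mul_comm]
    exact hc0
  have hm := C.many X n hX2 hn2
  rw [hX, show 2 * (G + 1) - 1 = 2 * G + 1 by omega] at hm
  exact numeric a k G n _ hG hGk hn (hm.trans (Nat.mul_le_mul_left 2 hc)) hs

theorem few_of_all (C : CurveTheory) (γ : ℕ → ℕ) (hγ : Computable γ) (h : ∀ D, 1 ≤ D → 2 ≤ γ D) :
    EffectiveShafarevich C → FewExceptions C γ := by
  rintro ⟨c, hc, hC⟩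
  refine ⟨fun p => c (p.1, γ p.2), ?_, 1, 0, ?_⟩
  · exact hc.comp (Computable.pair Computable.fst (hγ.comp Computable.snd))
  · intro B D hD S hS
    have : S = ∅ := by
      rw [Finset.eq_empty_iff_forall_notMem]
      intro Y hY
      obtain ⟨h1, h2, h3⟩ := hS Y hY
      have h4 := hC B Y (by rw [h1]; exact h D hD) h2
      rw [h1] at h4
      exact absurd h3 (not_lt.2 h4)
    rw [this]
    simp

theorem all_of_few (C : CurveTheory) (γ : ℕ → ℕ) (hγ : Computable γ)
    (h : ∀ D, 1 ≤ D → 2 ≤ γ D ∧ D ∣ γ D - 1) :
    FewExceptions C γ → EffectiveShafarevich C := by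
  rintro ⟨c, hc, a, k, hC⟩
  -- the genus of the first cover is `G g + 1`
  let G : ℕ → ℕ := fun g => (k + 2) * (g - 1)
  let t : ℕ → ℕ := fun g => 2 * 84 ^ 2 * (a + 1) * G g ^ 2 * (2 * G g) ^ k + 2
  let D : ℕ → ℕ := fun g => G g * t g
  let N : ℕ → ℕ := fun g => (γ (D g) - 1) / G g
  have hGp : Primrec G := Primrec.nat_mul.comp (Primrec.const (k + 2))
    (Primrec.nat_sub.comp Primrec.id (Primrec.const 1))
  have htp : Primrec t := by
    refine Primrec.nat_add.comp ?_ (Primrec.const 2)
    refine Primrec.nat_mul.comp (Primrec.nat_mul.comp (Primrec.const _) ?_) ?_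
    · exact (primrec_pow 2).comp hGp
    · exact (primrec_pow k).comp (Primrec.nat_mul.comp (Primrec.const 2) hGp)
  have hDp : Primrec D := Primrec.nat_mul.comp hGp htp
  have hNp : Computable N := by
    refine Computable₂.comp Primrec.nat_div.to_comp ?_ hGp.to_comp
    exact Computable₂.comp Primrec.nat_sub.to_comp (hγ.comp hDp.to_comp) (Computable.const 1)
  let c₁ : C.Base × ℕ → ℕ := fun p =>
    ((C.extensions (p.1, G p.2 + 1, N p.2)).map (fun B₂ => c (B₂, D p.2))).sum
  have hc₁ : Computable c₁ := by
    refine computable_sum (L := fun p : C.Base × ℕ => C.extensions (p.1, G p.2 + 1, N p.2))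
      (f := fun q : (C.Base × ℕ) × C.Base => c (q.2, D q.1.2)) ?_ ?_
    · refine C.extensions_computable.comp (Computable.pair Computable.fst (Computable.pair ?_ ?_))
      · exact (Primrec.succ.to_comp.comp hGp.to_comp).comp Computable.snd
      · exact hNp.comp Computable.snd
    · exact hc.comp (Computable.pair Computable.snd
        (hDp.to_comp.comp (Computable.snd.comp Computable.fst)))
  let c₀ : C.Base × ℕ → ℕ := fun p =>
    ((C.extensions (p.1, p.2, k + 2)).map (fun B₁ => c₁ (B₁, p.2))).sum
  have hc₀ : Computable c₀ := by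
    refine computable_sum (L := fun p : C.Base × ℕ => C.extensions (p.1, p.2, k + 2))
      (f := fun q : (C.Base × ℕ) × C.Base => c₁ (q.2, q.1.2)) ?_ ?_
    · exact C.extensions_computable.comp (Computable.pair Computable.fst
        (Computable.pair Computable.snd (Computable.const _)))
    · exact hc₁.comp (Computable.pair Computable.snd (Computable.snd.comp Computable.fst))
  refine ⟨fun p => c₀ p + (C.loss (p.2, k + 2) + C.loss (G p.2 + 1, N p.2)), ?_, ?_⟩
  · refine Computable₂.comp Primrec.nat_add.to_comp hc₀
      (Computable₂.comp Primrec.nat_add.to_comp ?_ ?_)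
    · exact C.loss_computable.comp (Computable.pair Computable.snd (Computable.const _))
    · exact C.loss_computable.comp (Computable.pair
        ((Primrec.succ.to_comp.comp hGp.to_comp).comp Computable.snd) (hNp.comp Computable.snd))
  · intro B X hX hB
    obtain ⟨B₁, hB₁, hg₁⟩ := C.good_source B X (k + 2) hX (by omega) hB
    have hne : (C.covers X (k + 2)).Nonempty := by
      rw [← Finset.card_pos]
      have h1 := C.many X (k + 2) hX (by omega)
      have h2 : 0 < (k + 2) ^ (2 * C.genus X - 1) := Nat.pow_pos (by omega)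
      omega
    obtain ⟨f, hf⟩ := hne
    have hX₁ := C.genus_source X (k + 2) hX (by omega) f hf
    have hG : 1 ≤ G (C.genus X) := Nat.mul_pos (by omega) (by omega)
    have hGk : k + 1 ≤ 2 * G (C.genus X) := by
      have : (k + 2) * 1 ≤ (k + 2) * (C.genus X - 1) := Nat.mul_le_mul_left _ (by omega)
      change k + 1 ≤ 2 * ((k + 2) * (C.genus X - 1))
      omega
    have ht : 2 ≤ t (C.genus X) := Nat.le_add_left 2 _
    have hD : 1 ≤ D (C.genus X) := Nat.mul_pos hG (by omega)
    obtain ⟨hγ2, s, hs⟩ := h _ hD
    have hs1 : 1 ≤ s := by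
      rcases Nat.eq_zero_or_pos s with h0 | h0
      · rw [h0, mul_zero] at hs; omega
      · exact h0
    have hN : N (C.genus X) = t (C.genus X) * s := by
      change (γ (D (C.genus X)) - 1) / G (C.genus X) = _
      rw [hs]
      change G (C.genus X) * t (C.genus X) * s / G (C.genus X) = _
      rw [mul_assoc]
      exact Nat.mul_div_cancel_left _ hG
    have hNt : t (C.genus X) ≤ N (C.genus X) := by
      rw [hN]; exact Nat.le_mul_of_pos_right _ hs1
    have hγN : N (C.genus X) * G (C.genus X) + 1 = γ (D (C.genus X)) := by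
      have h1 : G (C.genus X) * t (C.genus X) * s = N (C.genus X) * G (C.genus X) := by
        rw [hN]; ring
      have h2 : γ (D (C.genus X)) - 1 = N (C.genus X) * G (C.genus X) := by
        rw [hs]; exact h1
      omega
    have hX₁' : C.genus (C.source f) = G (C.genus X) + 1 := hX₁
    have hX₁2 : 2 ≤ C.genus (C.source f) := by omega
    obtain ⟨B₂, hB₂, hg₂⟩ := C.good_source B₁ (C.source f) (N (C.genus X)) hX₁2
      (by omega) (hg₁ f hf)
    have hst := step C a k (G (C.genus X)) (N (C.genus X)) (C.source f) hX₁' hG hGk hNt B₂ hg₂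
      (c (B₂, D (C.genus X))) (by
        intro S hS
        rw [hγN] at hS ⊢
        exact hC B₂ (D (C.genus X)) hD S hS)
    have hl := C.height_source X (k + 2) hX (by omega) f hf
    have e2 : c (B₂, D (C.genus X)) ≤ c₁ (B₁, C.genus X) := by
      refine List.single_le_sum (fun _ _ => Nat.zero_le _) _ ?_
      rw [hX₁'] at hB₂
      exact List.mem_map.2 ⟨B₂, hB₂, rfl⟩
    have e1 : c₁ (B₁, C.genus X) ≤ c₀ (B, C.genus X) := by
      refine List.single_le_sum (fun _ _ => Nat.zero_le _) _ ?_
      exact List.mem_map.2 ⟨B₁, hB₁, rfl⟩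
    have e3 : (c (B₂, D (C.genus X)) : ℝ) ≤ c₀ (B, C.genus X) := by
      exact_mod_cast e2.trans e1
    push_cast
    linarith

/-- **Exceptions amplify.** Let `γ` be a computable function with `γ D ≥ 2` and `D ∣ γ D - 1` for all
`D ≥ 1`, for example `γ D = D! + 1`.  The heights of all curves of genus `g ≥ 2` over number fields `K` with
good reduction outside `T` are bounded by a computable function of `K`, `T` and `g` if and only if this holds
for the genera `γ D` only and for all but polynomially many (in the genus, independently of `K` and `T`)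
curves. -/
theorem result (C : CurveTheory) (γ : ℕ → ℕ) (hγ : Computable γ)
    (h : ∀ D, 1 ≤ D → 2 ≤ γ D ∧ D ∣ γ D - 1) :
    EffectiveShafarevich C ↔ FewExceptions C γ :=
  ⟨few_of_all C γ hγ (fun D hD => (h D hD).1), all_of_few C γ hγ h⟩

end Pool.Agent.Results.MP_f89135_nt.PolynomiallyManyExceptions
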